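import Pool.Agent.H240.GU.Def

/-!
# GU-8: the curvature is negative except on the flat cylinder
-/

set_option autoImplicit false
set_option linter.unusedSectionVars false

open Set Filter Topology MeasureTheory
open scoped ContDiff Real

noncomputable section

namespace Pool.Agent.H643.GU

open Pool.Agent.Y262.EG Pool.Agent.H240.AL Pool.Agent.H240.GU
open Pool.Agent.H240.AL.I2 (HD isOpen_Sx sm_px sm_py sm_diff per_px per_py shift_mem sm_deriv)

/-! ### the flat Laplacian -/

theorem lp2_congr {f g : ℂ → ℝ} {z : ℂ} (h : f =ᶠ[𝓝 z] g) : Lp2 f z = Lp2 g z := by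
  have h1 : px f =ᶠ[𝓝 z] px g := by
    filter_upwards [h.fderiv (𝕜 := ℝ)] with w hw
    unfold px
    rw [hw]
  have h2 : py f =ᶠ[𝓝 z] py g := by
    filter_upwards [h.fderiv (𝕜 := ℝ)] with w hw
    unfold py
    rw [hw]
  have h3 : px (px f) z = px (px g) z := by
    show fderiv ℝ (px f) z 1 = fderiv ℝ (px g) z 1
    rw [h1.fderiv_eq]
  have h4 : py (py f) z = py (py g) z := by
    show fderiv ℝ (py f) z Complex.I = fderiv ℝ (py g) z Complex.I
    rw [h2.fderiv_eq]
  unfold Lp2
  rw [h3, h4]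

theorem curv_eq (f : ℂ → ℝ) (z : ℂ) : curv f z = -(Real.exp (-2 * f z) * Lp2 f z) := rfl

theorem curv_neg_iff (f : ℂ → ℝ) (z : ℂ) : curv f z < 0 ↔ 0 < Lp2 f z := by
  rw [curv_eq, neg_lt_zero]
  constructor
  · intro h
    exact (mul_pos_iff_of_pos_left (Real.exp_pos _)).1 h
  · intro h
    exact mul_pos (Real.exp_pos _) h

theorem curv_nonpos (f : ℂ → ℝ) (z : ℂ) (h : 0 ≤ Lp2 f z) : curv f z ≤ 0 := by
  rw [curv_eq, neg_nonpos]
  exact mul_nonneg (Real.exp_pos _).le h

theorem lp2_cont {f : ℂ → ℝ} {x0 δ : ℝ} (h : ContDiffOn ℝ ∞ f (Sx x0 δ)) :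
    ContinuousOn (Lp2 f) (Sx x0 δ) := by
  unfold Lp2
  exact (sm_px (sm_px h)).continuousOn.add (sm_py (sm_py h)).continuousOn

/-- the Laplacian of a sum with a function of the real part -/
theorem lp2_add {f : ℂ → ℝ} {x0 δ : ℝ} (h : ContDiffOn ℝ ∞ f (Sx x0 δ)) {H : ℝ → ℝ}
    (hH : ContDiff ℝ ∞ H) (k : ℝ) {z : ℂ} (hz : z ∈ Sx x0 δ) :
    Lp2 (fun z => f z + (k + H (z.re - x0))) z = Lp2 f z + iteratedDeriv 2 H (z.re - x0) := by
  set a : ℝ → ℝ := fun x => k + H (x - x0) with ha
  have hac : ContDiff ℝ ∞ a := contDiff_const.add (hH.comp (contDiff_id.sub contDiff_const))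
  have had : Differentiable ℝ a := hac.differentiable (by simp)
  have hda : ∀ x, deriv a x = deriv H (x - x0) := by
    intro x
    rw [ha, deriv_const_add, deriv_comp_sub_const]
  have hdda : ∀ x, deriv (deriv a) x = iteratedDeriv 2 H (x - x0) := by
    intro x
    have e : deriv a = fun x => deriv H (x - x0) := funext hda
    rw [e, deriv_comp_sub_const, iteratedDeriv_succ, iteratedDeriv_one]
  have hHD : ∀ u ∈ Sx x0 δ, HD (fun z => f z + a z.re) u (px f u + deriv a u.re) (py f u + 0) :=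
    fun u hu => (HD.self (sm_diff h hu)).add (HD.re (had u.re))
  have hpx : px (fun z => f z + a z.re) =ᶠ[𝓝 z] fun u => px f u + deriv a u.re := by
    filter_upwards [(isOpen_Sx x0 δ).mem_nhds hz] with u hu
    exact (hHD u hu).2.1
  have hpy : py (fun z => f z + a z.re) =ᶠ[𝓝 z] fun u => py f u := by
    filter_upwards [(isOpen_Sx x0 δ).mem_nhds hz] with u hu
    rw [(hHD u hu).2.2, add_zero]
  have hdd : DifferentiableAt ℝ (deriv a) z.re :=
    (sm_deriv hac).differentiable (by simp) |>.differentiableAt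
  have h1 : px (px (fun z => f z + a z.re)) z = px (px f) z + deriv (deriv a) z.re := by
    have e1 : px (px (fun z => f z + a z.re)) z = px (fun u => px f u + deriv a u.re) z := by
      show fderiv ℝ _ z 1 = fderiv ℝ _ z 1
      rw [hpx.fderiv_eq]
    rw [e1]
    exact ((HD.self (sm_diff (sm_px h) hz)).add (HD.re hdd)).2.1
  have h2 : py (py (fun z => f z + a z.re)) z = py (py f) z := by
    show fderiv ℝ _ z Complex.I = fderiv ℝ _ z Complex.I
    rw [hpy.fderiv_eq]
  show px (px (fun z => f z + a z.re)) z + py (py (fun z => f z + a z.re)) z = _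
  rw [h1, h2, hdda]
  unfold Lp2
  ring

/-! ### the profile -/

theorem ht_cont {H : ℝ → ℝ} (hH : ContDiff ℝ ∞ H) : Continuous (iteratedDeriv 2 H) :=
  hH.continuous_iteratedDeriv 2 (WithTop.coe_le_coe.2 le_top)

theorem dd_zero {H : ℝ → ℝ} {k : ℝ} {t : ℝ} (h : H =ᶠ[𝓝 t] fun _ => k) :
    iteratedDeriv 2 H t = 0 := by
  rw [iteratedDeriv_succ, iteratedDeriv_one]
  have h1 : deriv H =ᶠ[𝓝 t] fun _ => 0 := by
    have := h.deriv
    rwa [show deriv (fun _ : ℝ => k) = fun _ => 0 from funext fun x => deriv_const x k] at this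
  rw [h1.deriv_eq, deriv_const]

/-- `H''` is nonnegative near the cylinder -/
theorem ht_nonneg {δ κ0 cH ρ r : ℝ} {H : ℝ → ℝ} (h : Ht δ κ0 H cH ρ) (hρ : ρ < r)
    (hr : r < δ / 4) {t : ℝ} (ht : |t| ≤ δ / 4) : 0 ≤ iteratedDeriv 2 H t := by
  have hcont := ht_cont h.sm
  rcases lt_trichotomy ρ |t| with h1 | h1 | h1
  · exact (h.cvx t h1 ht).le
  · -- the boundary
    by_cases h0 : 0 ≤ t
    · have htρ : t = ρ := by rw [h1, abs_of_nonneg h0]
      have hlim : Tendsto (iteratedDeriv 2 H) (𝓝[>] t) (𝓝 (iteratedDeriv 2 H t)) :=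
        (hcont.tendsto t).mono_left nhdsWithin_le_nhds
      refine ge_of_tendsto hlim ?_
      have h2 : Ioo t (δ / 4) ∈ 𝓝[>] t := Ioo_mem_nhdsGT (by rw [htρ]; linarith)
      filter_upwards [h2] with s hs
      have hs0 : 0 ≤ s := h0.trans hs.1.le
      exact (h.cvx s (by rw [abs_of_nonneg hs0, ← htρ]; exact hs.1)
        (by rw [abs_of_nonneg hs0]; exact hs.2.le)).le
    · rw [not_le] at h0
      have htρ : -t = ρ := by rw [h1, abs_of_neg h0]
      have hlim : Tendsto (iteratedDeriv 2 H) (𝓝[<] t) (𝓝 (iteratedDeriv 2 H t)) :=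
        (hcont.tendsto t).mono_left nhdsWithin_le_nhds
      refine ge_of_tendsto hlim ?_
      have h2 : Ioo (-(δ / 4)) t ∈ 𝓝[<] t := Ioo_mem_nhdsLT (by linarith)
      filter_upwards [h2] with s hs
      have hs0 : s < 0 := hs.2.trans h0
      exact (h.cvx s (by rw [abs_of_neg hs0, ← htρ]; linarith [hs.2])
        (by rw [abs_of_neg hs0]; linarith [hs.1])).le
  · have h2 : H =ᶠ[𝓝 t] fun _ => -cH := by
      have h3 : {s : ℝ | |s| < ρ} ∈ 𝓝 t := (isOpen_lt continuous_abs continuous_const).mem_nhds h1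
      filter_upwards [h3] with s hs
      exact h.zer s (le_of_lt hs)
    exact (dd_zero h2).ge

/-- `H''` vanishes far from the cylinder -/
theorem ht_far {δ κ0 cH ρ : ℝ} {H : ℝ → ℝ} (h : Ht δ κ0 H cH ρ) {t : ℝ} (ht : δ / 2 < |t|) :
    iteratedDeriv 2 H t = 0 := by
  have h2 : H =ᶠ[𝓝 t] fun _ => 0 := by
    have h3 : {s : ℝ | δ / 2 < |s|} ∈ 𝓝 t :=
      (isOpen_lt continuous_const continuous_abs).mem_nhds ht
    filter_upwards [h3] with s hs
    exact h.far s (le_of_lt hs)
  exact dd_zero h2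

/-- the sum of a correction and a profile is a correction -/
theorem cw_add {x0 δ κ0 cH ρ : ℝ} {w : ℂ → ℝ} {H : ℝ → ℝ} (hδ : 0 < δ) (hw : Cw x0 δ w)
    (h : Ht δ κ0 H cH ρ) : Cw x0 δ (fun z => w z + H (z.re - x0)) := by
  obtain ⟨r, hr, hr0⟩ := hw.sup
  refine ⟨?_, ?_, max r (δ / 2), max_lt hr (by linarith), ?_⟩
  · refine hw.sm.add ?_
    exact (h.sm.comp (Complex.reCLM.contDiff.sub contDiff_const)).contDiffOn
  · intro z hz
    have e : (z + 2 * π * Complex.I).re = z.re := by simp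
    show w (z + 2 * π * Complex.I) + H ((z + 2 * π * Complex.I).re - x0) = _
    rw [hw.per z hz, e]
  · intro z hz hzr
    show w z + H (z.re - x0) = 0
    rw [hr0 z hz ((le_max_left _ _).trans hzr), h.far _ ((le_max_right _ _).trans hzr), add_zero]

/-! ### the curvature on the collar -/

/-- `Lp2 (φ + w)` vanishes on the flat cylinder -/
theorem lp2_flat {φ w : ℂ → ℝ} {x0 δ c r : ℝ} (hf : FlU φ x0 δ w c r)
    (hs : ContDiffOn ℝ ∞ (fun z => φ z + w z) (Sx x0 δ)) {z : ℂ} (hz : |z.re - x0| ≤ r) :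
    Lp2 (fun z => φ z + w z) z = 0 := by
  have hr := hf.rp
  have hrδ := hf.rL
  have hopen : ∀ u : ℂ, |u.re - x0| < r → Lp2 (fun z => φ z + w z) u = 0 := by
    intro u hu
    have h1 : (fun z => φ z + w z) =ᶠ[𝓝 u] fun _ => -c := by
      have h3 : {s : ℂ | |s.re - x0| < r} ∈ 𝓝 u :=
        (isOpen_lt (continuous_abs.comp (Complex.continuous_re.sub continuous_const))
          continuous_const).mem_nhds hu
      filter_upwards [h3] with s hs
      have := hf.flat s (le_of_lt hs)
      linarith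
    rw [lp2_congr h1]
    have h2 : px (fun _ : ℂ => -c) = fun _ => 0 := funext fun u => (HD.const (-c) u).2.1
    have h3 : py (fun _ : ℂ => -c) = fun _ => 0 := funext fun u => (HD.const (-c) u).2.2
    unfold Lp2
    rw [h2, h3, (HD.const 0 u).2.1, (HD.const 0 u).2.2, add_zero]
  rcases hz.lt_or_eq with h | h
  · exact hopen z h
  · -- approach from inside
    have hzS : z ∈ Sx x0 δ := by
      show |z.re - x0| < δ
      rw [h]; linarith
    have hcont : ContinuousAt (Lp2 (fun z => φ z + w z)) z :=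
      (lp2_cont hs).continuousAt ((isOpen_Sx x0 δ).mem_nhds hzS)
    set γ : ℝ → ℂ := fun τ => z - ((τ * (z.re - x0) : ℝ) : ℂ) with hγ
    have hγc : Continuous γ := by
      rw [hγ]
      exact continuous_const.sub (Complex.continuous_ofReal.comp (continuous_id.mul continuous_const))
    have hγ0 : γ 0 = z := by simp [hγ]
    have hlim : Tendsto (fun τ => Lp2 (fun z => φ z + w z) (γ τ)) (𝓝[>] 0)
        (𝓝 (Lp2 (fun z => φ z + w z) z)) := by
      have h2 : Tendsto γ (𝓝[>] 0) (𝓝 z) := by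
        have := (hγc.tendsto 0).mono_left (nhdsWithin_le_nhds (s := Ioi (0 : ℝ)))
        rwa [hγ0] at this
      exact hcont.tendsto.comp h2
    have hzero : Tendsto (fun τ => Lp2 (fun z => φ z + w z) (γ τ)) (𝓝[>] 0) (𝓝 0) := by
      refine Tendsto.congr' ?_ tendsto_const_nhds
      have h2 : Ioo (0 : ℝ) 1 ∈ 𝓝[>] (0 : ℝ) := Ioo_mem_nhdsGT (by norm_num)
      filter_upwards [h2] with τ hτ
      symm
      refine hopen _ ?_
      have e : (γ τ).re - x0 = (1 - τ) * (z.re - x0) := by
        rw [hγ]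
        simp only [Complex.sub_re, Complex.ofReal_re]
        ring
      rw [e, abs_mul, h, abs_of_pos (by linarith [hτ.2])]
      nlinarith [hτ.1]
    exact tendsto_nhds_unique hlim hzero

theorem stK (hC : StCx) : StK := by
  intro M P _ _ _ _ Ω φ pr q x0 δ hUT hCo hneg w c r hf hw2
  obtain ⟨hCa, hCb, hCc⟩ := hC M P Ω φ pr q x0 δ hUT hCo
  have hδ := hCo.δp
  have hr := hf.rp
  have hrδ := hf.rL
  have hSub : Sx x0 δ ⊆ Ω := fun z hz => hCo.sub z hz
  have hs : ContDiffOn ℝ ∞ (fun z => φ z + w z) (Sx x0 δ) := (hUT.smooth.mono hSub).add hf.cw.sm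
  have hper : ∀ z ∈ Sx x0 δ, (fun z => φ z + w z) (z + 2 * π * Complex.I) =
      (fun z => φ z + w z) z := by
    intro z hz
    show φ (z + 2 * π * Complex.I) + w (z + 2 * π * Complex.I) = φ z + w z
    rw [hCb z hz, hf.cw.per z hz]
  have hLper : ∀ z ∈ Sx x0 δ, Lp2 (fun z => φ z + w z) (z + 2 * π * Complex.I) =
      Lp2 (fun z => φ z + w z) z := by
    intro z hz
    show px (px _) _ + py (py _) _ = px (px _) z + py (py _) z
    rw [per_px (per_px hper) z hz, per_py (per_py hper) z hz]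
  -- the constant
  set Kc : Set ℂ := {z : ℂ | δ / 4 ≤ |z.re - x0| ∧ |z.re - x0| ≤ δ / 2 ∧ 0 ≤ z.im ∧ z.im ≤ 2 * π}
    with hKc
  have hKcS : Kc ⊆ Sx x0 δ := by
    intro z hz
    show |z.re - x0| < δ
    have := hz.2.1
    linarith
  have hKcomp : IsCompact Kc := by
    have hclosed : IsClosed Kc := by
      have c1 : Continuous fun z : ℂ => |z.re - x0| :=
        continuous_abs.comp (Complex.continuous_re.sub continuous_const)
      refine (isClosed_le continuous_const c1).inter ((isClosed_le c1 continuous_const).inter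
        ((isClosed_le continuous_const Complex.continuous_im).inter
          (isClosed_le Complex.continuous_im continuous_const)))
    have hbdd : Bornology.IsBounded Kc := by
      rw [Metric.isBounded_iff_subset_closedBall 0]
      refine ⟨|x0| + δ / 2 + 2 * π, ?_⟩
      intro z hz
      rw [Metric.mem_closedBall, dist_zero_right]
      have h1 := Complex.norm_le_abs_re_add_abs_im z
      have h2 : |z.re| ≤ |z.re - x0| + |x0| := by
        have := abs_add_le (z.re - x0) x0
        rwa [sub_add_cancel] at this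
      have h3 : |z.im| ≤ 2 * π := by rw [abs_of_nonneg hz.2.2.1]; exact hz.2.2.2
      have h4 := hz.2.1
      linarith
    exact Metric.isCompact_of_isClosed_isBounded hclosed hbdd
  have hKne : Kc.Nonempty := by
    refine ⟨((x0 + δ / 4 : ℝ) : ℂ), ?_⟩
    have e : (((x0 + δ / 4 : ℝ) : ℂ)).re - x0 = δ / 4 := by
      rw [Complex.ofReal_re]; ring
    refine ⟨?_, ?_, ?_, ?_⟩
    · rw [e, abs_of_pos (by linarith)]
    · rw [e, abs_of_pos (by linarith)]; linarith
    · rw [Complex.ofReal_im]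
    · rw [Complex.ofReal_im]; positivity
  obtain ⟨zm, hzm, hmin⟩ := hKcomp.exists_isMinOn hKne ((lp2_cont hs).mono hKcS)
  have hzmpos : 0 < Lp2 (fun z => φ z + w z) zm :=
    hf.pos zm (by have := hzm.1; linarith) (hKcS hzm)
  set κ0 : ℝ := Lp2 (fun z => φ z + w z) zm / 2 with hκ0
  have hκ0p : 0 < κ0 := by rw [hκ0]; linarith
  -- the lower bound
  have hshift : ∀ (n : ℕ) (z : ℂ), z ∈ Sx x0 δ → Lp2 (fun z => φ z + w z)
      (z + n * (2 * π * Complex.I)) = Lp2 (fun z => φ z + w z) z := by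
    intro n
    induction n with
    | zero => intro z _; simp
    | succ n ih =>
      intro z hz
      have e : z + ((n + 1 : ℕ) : ℂ) * (2 * π * Complex.I) =
          (z + 2 * π * Complex.I) + n * (2 * π * Complex.I) := by push_cast; ring
      rw [e, ih _ (shift_mem hz), hLper z hz]
  have hlow : ∀ z : ℂ, δ / 4 ≤ |z.re - x0| → |z.re - x0| ≤ δ / 2 →
      2 * κ0 ≤ Lp2 (fun z => φ z + w z) z := by
    intro z hz1 hz2
    set n : ℤ := ⌊z.im / (2 * π)⌋ with hn
    set z' : ℂ := z - n * (2 * π * Complex.I) with hz'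
    have hre : z'.re = z.re := by rw [hz']; simp
    have him : z'.im = z.im - n * (2 * π) := by rw [hz']; simp
    have hpi : 0 < 2 * π := by positivity
    have h1 : 0 ≤ z'.im := by
      rw [him]
      have := Int.floor_le (z.im / (2 * π))
      rw [le_div_iff₀ hpi] at this
      linarith
    have h2 : z'.im ≤ 2 * π := by
      rw [him]
      have := (Int.lt_floor_add_one (z.im / (2 * π))).le
      rw [div_le_iff₀ hpi] at this
      linarith
    have hz'K : z' ∈ Kc := ⟨by rw [hre]; exact hz1, by rw [hre]; exact hz2, h1, h2⟩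
    have hz'S := hKcS hz'K
    have hzS : z ∈ Sx x0 δ := by
      show |z.re - x0| < δ
      linarith
    have heq : Lp2 (fun z => φ z + w z) z = Lp2 (fun z => φ z + w z) z' := by
      rcases Int.le_total 0 n with hn0 | hn0
      · obtain ⟨k, hk⟩ := Int.eq_ofNat_of_zero_le hn0
        have e : z = z' + (k : ℂ) * (2 * π * Complex.I) := by
          rw [hz', hk]; push_cast; ring
        have h3 := hshift k z' hz'S
        rw [← e] at h3
        exact h3
      · obtain ⟨k, hk⟩ := Int.eq_ofNat_of_zero_le (neg_nonneg.2 hn0)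
        have e : z' = z + (k : ℂ) * (2 * π * Complex.I) := by
          have hn1 : n = -(k : ℤ) := by rw [← hk]; ring
          rw [hz', hn1]; push_cast; ring
        have h3 := hshift k z hzS
        rw [← e] at h3
        exact h3.symm
    rw [heq, hκ0]
    have h3 : Lp2 (fun z => φ z + w z) zm ≤ Lp2 (fun z => φ z + w z) z' := hmin hz'K
    linarith
  refine ⟨κ0, hκ0p, ?_⟩
  intro H cH ρ hρ hH
  set W : ℂ → ℝ := fun z => w z + H (z.re - x0) with hW
  have hWc : Cw x0 δ W := cw_add hδ hf.cw hH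
  obtain ⟨hsm, -, hSx, hout, hout2⟩ := hCc W hWc
  -- the new metric
  set ψ : ℂ → ℝ := fun z => φ z + Vm pr x0 δ w c H cH (pr z) with hψ
  have hVm : ∀ z, Vm pr x0 δ w c H cH (pr z) = (c + cH) + cx pr x0 δ W (pr z) := fun z => rfl
  have hsmV : ContDiffOn ℝ ∞ (fun z => Vm pr x0 δ w c H cH (pr z)) Ω :=
    contDiffOn_const.add hsm
  have hUTψ : IsUT Ω ψ pr q := by
    have h1 := (Pool.Agent.Y262.EG.tUTs M P Ω φ pr q hUT (Vm pr x0 δ w c H cH) hsmV 2).1
    have e1 : (fun z => φ z + 2 / 2 * Vm pr x0 δ w c H cH (pr z)) = ψ := by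
      funext z
      rw [hψ]
      ring
    rwa [e1] at h1
  obtain ⟨hCa', -, -⟩ := hC M P Ω ψ pr q x0 δ hUTψ hCo
  -- on the collar
  have hcol : ∀ z ∈ Sx x0 δ, Lp2 ψ z = Lp2 (fun z => φ z + w z) z +
      iteratedDeriv 2 H (z.re - x0) := by
    intro z hz
    rw [← lp2_add hs hH.sm (c + cH) hz]
    refine lp2_congr ?_
    filter_upwards [(isOpen_Sx x0 δ).mem_nhds hz] with u hu
    show φ u + Vm pr x0 δ w c H cH (pr u) = φ u + w u + (c + cH + H (u.re - x0))
    rw [hVm, hSx u hu]
    show φ u + (c + cH + (w u + H (u.re - x0))) = _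
    ring
  have hcol2 : ∀ z ∈ Sx x0 δ, 0 ≤ Lp2 ψ z ∧ (ρ < |z.re - x0| → 0 < Lp2 ψ z) := by
    intro z hz
    have hzδ : |z.re - x0| < δ := hz
    rw [hcol z hz]
    rcases le_total |z.re - x0| r with h1 | h1
    · rw [lp2_flat hf hs h1, zero_add]
      exact ⟨ht_nonneg hH hρ hrδ (by linarith), fun h => hH.cvx _ h (by linarith)⟩
    · rcases h1.eq_or_lt with h2 | h2
      · rw [lp2_flat hf hs h2.ge, zero_add]
        exact ⟨ht_nonneg hH hρ hrδ (by linarith), fun h => hH.cvx _ h (by linarith)⟩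
      · have hp := hf.pos z h2 hzδ
        have hpos : 0 < Lp2 (fun z => φ z + w z) z + iteratedDeriv 2 H (z.re - x0) := by
          rcases le_total |z.re - x0| (δ / 4) with h3 | h3
          · have := ht_nonneg hH hρ hrδ h3
            linarith
          · rcases le_or_gt |z.re - x0| (δ / 2) with h4 | h4
            · have h5 := hlow z h3 h4
              have h6 := (abs_le.1 (hH.bd 2 le_rfl (z.re - x0))).1
              linarith
            · rw [ht_far hH h4, add_zero]
              exact hp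
        exact ⟨hpos.le, fun _ => hpos⟩
  intro z hz
  by_cases hzc : pr z ∈ pr '' Sx x0 δ
  · obtain ⟨z', hz', hpz⟩ := hzc
    have heq : curv ψ z = curv ψ z' := hCa' z z' hz (hSub hz') hpz.symm
    rw [heq]
    refine ⟨curv_nonpos _ _ (hcol2 z' hz').1, fun h => ?_⟩
    rw [curv_neg_iff]
    refine (hcol2 z' hz').2 ?_
    by_contra hcon
    exact h ⟨z', not_lt.1 hcon, hpz⟩
  · have h1 := hout2 z hz hzc
    have h2 : ψ =ᶠ[𝓝 z] fun u => φ u + (c + cH) := by
      filter_upwards [h1] with u hu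
      show φ u + Vm pr x0 δ w c H cH (pr u) = _
      have hu' : cx pr x0 δ W (pr u) = 0 := hu
      rw [hVm, hu', add_zero]
    have hφ := (curv_neg_iff φ z).1 (hneg z hz)
    have h3 : Lp2 ψ z = Lp2 φ z := by
      rw [lp2_congr h2]
      have e1 : px (fun u => φ u + (c + cH)) = px φ := by
        funext u
        show fderiv ℝ (fun u => φ u + (c + cH)) u 1 = fderiv ℝ φ u 1
        rw [fderiv_add_const]
      have e2 : py (fun u => φ u + (c + cH)) = py φ := by
        funext u
        show fderiv ℝ (fun u => φ u + (c + cH)) u Complex.I = fderiv ℝ φ u Complex.I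
        rw [fderiv_add_const]
      unfold Lp2
      rw [e1, e2]
    have h4 : curv ψ z < 0 := by
      rw [curv_neg_iff, h3]; exact hφ
    exact ⟨h4.le, fun _ => h4⟩

end Pool.Agent.H643.GU
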